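import Mathlib
import Pool.Agent.Lib_MP_9284e8_an.Sharp

/-!
# The Sendov disc property with centres in the convex hull, for nonpositive coefficients

Let `p = (X - z 0) ... (X - z (n-1))`, `n ≥ 2`, be a polynomial whose coefficients below the leading
one are real and nonpositive and whose zeros all lie in the closed disc of radius `R > 0` about the
origin (`R = 1` is the class of the question). Let `ζ` be a point of the convex hull of the zeros, or,
more generally, of one of the closed discs that have the segment from the origin to a zero as a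
diameter (these discs cover the convex hull). Then the closed disc of radius `R` about `ζ` contains a
zero of `p'`, and even the open disc does, except when `p = X ^ n - R ^ n` and `ζ` is a zero of `p`.
-/

set_option autoImplicit false

namespace Pool.Agent.Results.MP_9284e8_an.SharpHull

open Polynomial

theorem result (n : ℕ) (hn : 2 ≤ n) (R : ℝ) (hR : 0 < R)
    (z : Fin n → ℂ) (hz : ∀ i, ‖z i‖ ≤ R) (a : Fin n → ℝ) (ha : ∀ k, 0 ≤ a k)
    (hp : ∏ i, (X - C (z i)) = X ^ n - ∑ k : Fin n, C ((a k : ℝ) : ℂ) * X ^ (k : ℕ))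
    (ζ : ℂ)
    (hζ : ζ ∈ convexHull ℝ (Set.range z) ∨ ∃ i, ζ ∈ Metric.closedBall (z i / 2) (‖z i‖ / 2)) :
    (∃ w ∈ (derivative (∏ i, (X - C (z i)))).roots, dist w ζ ≤ R) ∧
      ((∀ w ∈ (derivative (∏ i, (X - C (z i)))).roots, R ≤ dist w ζ) →
        ∏ i, (X - C (z i)) = X ^ n - C ((R : ℂ) ^ n) ∧ ζ ∈ Set.range z) := by
  obtain ⟨N, rfl⟩ : ∃ N, n = N + 1 := ⟨n - 1, by omega⟩
  have hN : 1 ≤ N := by omega
  have hRC : (R : ℂ) ≠ 0 := by exact_mod_cast hR.ne'
  set p : ℂ[X] := ∏ i, (X - C (z i)) with hpdef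
  have hpm : p.Monic := monic_prod_of_monic _ _ fun i _ => monic_X_sub_C _
  have hpd : p.natDegree = N + 1 := by
    rw [hpdef, natDegree_prod_of_monic _ _ fun i _ => monic_X_sub_C _]
    simp
  have hdne : derivative p ≠ 0 := by
    intro h
    have h1 : (derivative p).natDegree = N := by
      rw [natDegree_derivative, hpd]
      omega
    rw [h] at h1
    simp at h1
    omega
  -- a zero in the right direction
  obtain ⟨i, hi⟩ : ∃ i, ‖ζ‖ ^ 2 ≤ ζ.re * (z i).re + ζ.im * (z i).im := by
    rcases hζ with h | ⟨i, h⟩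
    · obtain ⟨z1, ⟨i, rfl⟩, h1⟩ := Schmeisser.hull_dir _ _ h
      exact ⟨i, h1⟩
    · exact ⟨i, (Schmeisser.disc_iff _ _).1 h⟩
  -- the scaled polynomial
  set q : ℂ[X] := ∏ i, (X - C (z i / R)) with hqdef
  have hqm : q.Monic := monic_prod_of_monic _ _ fun i _ => monic_X_sub_C _
  have hqd : q.natDegree = N + 1 := by
    rw [hqdef, natDegree_prod_of_monic _ _ fun i _ => monic_X_sub_C _]
    simp
  have hpq : p.comp (C (R : ℂ) * X) = C ((R : ℂ) ^ (N + 1)) * q := by
    rw [hpdef, hqdef, prod_comp]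
    have h1 : ∀ i : Fin (N + 1), (X - C (z i)).comp (C (R : ℂ) * X) =
        C (R : ℂ) * (X - C (z i / R)) := by
      intro i
      rw [sub_comp, X_comp, C_comp, mul_sub, ← C_mul, mul_div_cancel₀ _ hRC]
    rw [Finset.prod_congr rfl fun i _ => h1 i, Finset.prod_mul_distrib, Finset.prod_const,
      Finset.card_univ, Fintype.card_fin, C_pow]
  have hqc : ∀ k : ℕ, k < N + 1 → ∃ r : ℝ, r ≤ 0 ∧ q.coeff k = (r : ℂ) := by
    intro k hk
    refine ⟨-(a ⟨k, hk⟩ * R ^ k / R ^ (N + 1)), ?_, ?_⟩
    · have := ha ⟨k, hk⟩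
      have h1 : 0 ≤ a ⟨k, hk⟩ * R ^ k / R ^ (N + 1) := by positivity
      linarith
    · have h1 : (C ((R : ℂ) ^ (N + 1)) * q).coeff k = (R : ℂ) ^ (N + 1) * q.coeff k :=
        coeff_C_mul _
      have h2 : (p.comp (C (R : ℂ) * X)).coeff k = p.coeff k * (R : ℂ) ^ k :=
        comp_C_mul_X_coeff
      have h3 : p.coeff k = -((a ⟨k, hk⟩ : ℝ) : ℂ) := by
        rw [hp, coeff_sub, coeff_X_pow, if_neg (by omega), finsetSum_coeff,
          Finset.sum_eq_single (⟨k, hk⟩ : Fin (N + 1))]
        · simp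
        · intro b _ hb
          rw [coeff_C_mul, coeff_X_pow, if_neg (fun h => hb (Fin.ext h.symm)), mul_zero]
        · intro h
          exact absurd (Finset.mem_univ _) h
      rw [hpq, h1, h3] at h2
      have h4 : (R : ℂ) ^ (N + 1) ≠ 0 := pow_ne_zero _ hRC
      have h5 : q.coeff k = -((a ⟨k, hk⟩ : ℝ) : ℂ) * (R : ℂ) ^ k / (R : ℂ) ^ (N + 1) := by
        rw [eq_div_iff h4, mul_comm, h2]
      rw [h5]
      push_cast
      ring
  have hq0 : ∀ x : ℂ, q.eval x = 0 → ‖x‖ ≤ 1 := by
    intro x hx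
    rw [hqdef, eval_prod, Finset.prod_eq_zero_iff] at hx
    obtain ⟨j, _, hj⟩ := hx
    rw [eval_sub, eval_X, eval_C, sub_eq_zero] at hj
    rw [hj, norm_div, Complex.norm_real, Real.norm_of_nonneg hR.le, div_le_one hR]
    exact hz j
  have hqi : q.eval (z i / R) = 0 := by
    rw [hqdef, eval_prod, Finset.prod_eq_zero_iff]
    exact ⟨i, Finset.mem_univ _, by simp⟩
  have hdir : ‖ζ / R‖ ^ 2 ≤ (ζ / (R : ℂ)).re * (z i / (R : ℂ)).re +
      (ζ / (R : ℂ)).im * (z i / (R : ℂ)).im := by
    rw [norm_div, Complex.norm_real, Real.norm_of_nonneg hR.le, div_pow, Complex.div_ofReal_re,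
      Complex.div_ofReal_re, Complex.div_ofReal_im, Complex.div_ofReal_im, div_le_iff₀ (by positivity)]
    have e : (ζ.re / R * ((z i).re / R) + ζ.im / R * ((z i).im / R)) * R ^ 2 =
        ζ.re * (z i).re + ζ.im * (z i).im := by
      field_simp
    rw [e]
    exact hi
  have hder : ∀ x : ℂ, (derivative q).eval x = 0 → (derivative p).eval (R * x) = 0 := by
    intro x hx
    have h1 := congrArg (fun f => (derivative f).eval x) hpq
    simp only [derivative_comp, derivative_mul, derivative_C, derivative_X, zero_mul, mul_one,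
      zero_add, eval_mul, eval_comp, eval_C, eval_X, hx, mul_zero] at h1
    rcases mul_eq_zero.1 h1 with h | h
    · exact absurd h hRC
    · exact h
  have hsharp : (∀ w ∈ (derivative p).roots, R ≤ dist w ζ) →
      p = X ^ (N + 1) - C ((R : ℂ) ^ (N + 1)) ∧ ζ ∈ Set.range z := by
    intro hfar
    obtain ⟨h1, h2⟩ := Schmeisser.sharp N hN q hqm hqd hqc hq0 (ζ / R) (z i / R) hqi hdir
      (by
        intro w hw
        have h3 := hfar (R * w) ((mem_roots hdne).2 (hder w hw))
        rw [dist_eq_norm] at h3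
        have e : (R : ℂ) * w - ζ = R * (w - ζ / R) := by
          rw [mul_sub, mul_div_cancel₀ _ hRC]
        rw [e, norm_mul, Complex.norm_real, Real.norm_of_nonneg hR.le] at h3
        by_contra h4
        push Not at h4
        nlinarith)
    refine ⟨?_, i, ?_⟩
    · rw [h1] at hpq
      apply Polynomial.funext
      intro x
      have h3 := congrArg (fun f => f.eval (x / R)) hpq
      simp only [eval_comp, eval_mul, eval_C, eval_X, eval_sub, eval_pow, eval_one] at h3
      rw [mul_div_cancel₀ _ hRC, div_pow, mul_sub, mul_div_cancel₀ _ (pow_ne_zero _ hRC),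
        mul_one] at h3
      rw [h3]
      simp
    · have h3 : ζ / R = z i / R := h2
      field_simp at h3
      exact h3.symm
  refine ⟨?_, hsharp⟩
  by_contra hcon
  push Not at hcon
  obtain ⟨h1, j, hj⟩ := hsharp fun w hw => (hcon w hw).le
  have h2 : (0 : ℂ) ∈ (derivative p).roots := by
    rw [mem_roots hdne, IsRoot.def, h1, derivative_sub, derivative_C, sub_zero,
      derivative_X_pow, eval_mul, eval_pow, eval_X, Nat.add_sub_cancel, zero_pow (by omega),
      mul_zero]
  have h3 := hcon 0 h2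
  rw [dist_eq_norm, zero_sub, norm_neg, ← hj] at h3
  exact absurd (hz j) (not_le.2 h3)

end Pool.Agent.Results.MP_9284e8_an.SharpHull
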